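import Pool.Agent.Y725.CL.Sub

/-! Existence of a good matrix (union bound). -/

set_option autoImplicit false

open Finset Filter

namespace Pool.Agent.Y725.CL

open Pool.Agent.H178R3.Cay

theorem card_mat (k p : ℕ) : Fintype.card (Fin p → Fin k → ZMod 2) = 2 ^ (k * p) := by
  simp [ZMod.card, pow_mul]

theorem exists_mat (hCHE : P_CHE) (hDEP : P_DEP) (k p q : ℕ) (x t : ℝ) (hqp : q < p)
    (hx0 : 0 < x) (hx1 : x ≤ 1) (ht : 0 ≤ t)
    (hlt : (1 + x) ^ (k + p + 1) / x ^ q / 2 ^ k + 2 ^ k * Real.exp (-(2 * t ^ 2 / p)) < 1) :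
    ∃ a : Fin p → Fin k → ZMod 2,
      (∀ I : Finset (V k p), I.Nonempty → #I ≤ q →
        ∃ j, Odd (∑ l ∈ I, full (ma a) (mb a) j l)) ∧
      (∀ b : Fin k → ZMod 2, b ≠ 0 →
        ((#{i : Fin p | ∑ j, b j * a i j = 1} : ℕ) : ℝ) ≤ (p : ℝ) / 2 + t) := by
  classical
  by_contra hcon
  have hp : 0 < p := by omega
  let bad1 : Finset (V k p) → Finset (Fin p → Fin k → ZMod 2) := fun I =>
    {a | ∀ j, Even (∑ l ∈ I, full (ma a) (mb a) j l)}
  let bad2 : (Fin k → ZMod 2) → Finset (Fin p → Fin k → ZMod 2) := fun b =>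
    {a | (p : ℝ) / 2 + t ≤ ((#{i : Fin p | ∑ j, b j * a i j = 1} : ℕ) : ℝ)}
  let SI : Finset (Finset (V k p)) := {I | I.Nonempty ∧ #I ≤ q}
  let SB : Finset (Fin k → ZMod 2) := {b | b ≠ 0}
  have hcov : (Finset.univ : Finset (Fin p → Fin k → ZMod 2)) ⊆
      (SI.biUnion bad1) ∪ (SB.biUnion bad2) := by
    intro a _
    by_contra hna
    apply hcon
    refine ⟨a, fun I hI hq => ?_, fun b hb => ?_⟩
    · by_contra hno
      push Not at hno
      apply hna
      rw [Finset.mem_union, Finset.mem_biUnion]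
      refine Or.inl ⟨I, by simp [SI, hI, hq], ?_⟩
      simp only [bad1, Finset.mem_filter, Finset.mem_univ, true_and]
      intro j
      exact Int.not_odd_iff_even.1 (hno j)
    · by_contra hno
      push Not at hno
      apply hna
      rw [Finset.mem_union, Finset.mem_biUnion, Finset.mem_biUnion]
      refine Or.inr ⟨b, by simp [SB, hb], ?_⟩
      simp only [bad2, Finset.mem_filter, Finset.mem_univ, true_and]
      exact hno.le
  have h1 : (2 ^ (k * p) : ℕ) ≤ ∑ I ∈ SI, #(bad1 I) + ∑ b ∈ SB, #(bad2 b) := by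
    rw [← card_mat k p, ← Finset.card_univ]
    refine (Finset.card_le_card hcov).trans ((Finset.card_union_le _ _).trans ?_)
    exact add_le_add Finset.card_biUnion_le Finset.card_biUnion_le
  have h1' : ((2 : ℝ) ^ (k * p)) ≤ ∑ I ∈ SI, (#(bad1 I) : ℝ) + ∑ b ∈ SB, (#(bad2 b) : ℝ) := by
    exact_mod_cast h1
  have hM : (0 : ℝ) < (2 : ℝ) ^ (k * p) := by positivity
  have h2 : ∑ I ∈ SI, (#(bad1 I) : ℝ) ≤
      (2 : ℝ) ^ (k * p) * ((1 + x) ^ (k + p + 1) / x ^ q / 2 ^ k) := by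
    have e1 : ∀ I ∈ SI, (#(bad1 I) : ℝ) ≤ (2 : ℝ) ^ (k * p) / 2 ^ k := by
      intro I hI
      simp only [SI, Finset.mem_filter, Finset.mem_univ, true_and] at hI
      rw [le_div_iff₀ (by positivity)]
      have := hDEP k p I hI.1 (lt_of_le_of_lt hI.2 hqp)
      exact_mod_cast this
    have e2 : ((#SI : ℕ) : ℝ) ≤ (1 + x) ^ (k + p + 1) / x ^ q := by
      have e3 : #SI ≤ #{I : Finset (V k p) | #I ≤ q} := by
        apply Finset.card_le_card
        intro I hI
        simp only [SI, Finset.mem_filter, Finset.mem_univ, true_and] at hI ⊢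
        exact hI.2
      have e4 := t_SUB (k + p + 1) q x hx0 hx1 (V k p) (by simp [V]; ring)
      exact le_trans (by exact_mod_cast e3) e4
    calc ∑ I ∈ SI, (#(bad1 I) : ℝ) ≤ ∑ I ∈ SI, (2 : ℝ) ^ (k * p) / 2 ^ k := Finset.sum_le_sum e1
      _ = (#SI : ℝ) * ((2 : ℝ) ^ (k * p) / 2 ^ k) := by rw [Finset.sum_const, nsmul_eq_mul]
      _ ≤ ((1 + x) ^ (k + p + 1) / x ^ q) * ((2 : ℝ) ^ (k * p) / 2 ^ k) :=
          mul_le_mul_of_nonneg_right e2 (by positivity)
      _ = (2 : ℝ) ^ (k * p) * ((1 + x) ^ (k + p + 1) / x ^ q / 2 ^ k) := by ring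
  have h3 : ∑ b ∈ SB, (#(bad2 b) : ℝ) ≤
      (2 : ℝ) ^ (k * p) * (2 ^ k * Real.exp (-(2 * t ^ 2 / p))) := by
    have e1 : ∀ b ∈ SB, (#(bad2 b) : ℝ) ≤
        (2 : ℝ) ^ (k * p) * Real.exp (-(2 * t ^ 2 / p)) := by
      intro b hb
      simp only [SB, Finset.mem_filter, Finset.mem_univ, true_and] at hb
      exact hCHE k p b t hp hb ht
    have e2 : ((#SB : ℕ) : ℝ) ≤ 2 ^ k := by
      have e3 : #SB ≤ 2 ^ k := by
        refine (Finset.card_le_univ _).trans ?_
        simp [ZMod.card]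
      exact_mod_cast e3
    calc ∑ b ∈ SB, (#(bad2 b) : ℝ)
        ≤ ∑ b ∈ SB, (2 : ℝ) ^ (k * p) * Real.exp (-(2 * t ^ 2 / p)) := Finset.sum_le_sum e1
      _ = (#SB : ℝ) * ((2 : ℝ) ^ (k * p) * Real.exp (-(2 * t ^ 2 / p))) := by
          rw [Finset.sum_const, nsmul_eq_mul]
      _ ≤ 2 ^ k * ((2 : ℝ) ^ (k * p) * Real.exp (-(2 * t ^ 2 / p))) :=
          mul_le_mul_of_nonneg_right e2 (by positivity)
      _ = (2 : ℝ) ^ (k * p) * (2 ^ k * Real.exp (-(2 * t ^ 2 / p))) := by ring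
  have h4 : (2 : ℝ) ^ (k * p) ≤ (2 : ℝ) ^ (k * p) *
      ((1 + x) ^ (k + p + 1) / x ^ q / 2 ^ k + 2 ^ k * Real.exp (-(2 * t ^ 2 / p))) := by
    rw [mul_add]
    linarith
  nlinarith

theorem ma_cast {k p : ℕ} (a : Fin p → Fin k → ZMod 2) (j : Fin k) (i : Fin p) :
    ((ma a j i : ℤ) : ZMod 2) = a i j := by
  simp [ma]

theorem even_row {k p : ℕ} (a : Fin p → Fin k → ZMod 2) (j : Fin k) :
    Even (∑ l, full (ma a) (mb a) j l) := by
  have : ∑ l, full (ma a) (mb a) j l = 2 * (1 + ∑ i, ma a j i) := by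
    simp only [Fintype.sum_sum_type, full, Sum.elim_inl, Sum.elim_inr, Finset.univ_unique,
      Finset.sum_singleton, mb, Finset.sum_ite_eq', Finset.mem_univ, if_true]
    ring
  rw [this]
  exact even_two_mul _

theorem even_wt {k p : ℕ} (a : Fin p → Fin k → ZMod 2) (b : Fin k → ℤ) :
    Even (wt (ma a) (mb a) b) := by
  rw [← Nat.not_odd_iff_even, wt, ← int_odd_sum_iff, Int.not_odd_iff_even]
  simp only [par]
  rw [Finset.sum_comm]
  apply Finset.even_sum
  intro j _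
  rw [← Finset.mul_sum]
  exact (even_row a j).mul_left _

theorem odd_iff_cast (z : ℤ) : Odd z ↔ (z : ZMod 2) = 1 := by
  rw [Int.odd_iff]
  constructor
  · intro h
    have : ((z : ℤ) : ZMod 2) = ((1 : ℤ) : ZMod 2) := by
      rw [ZMod.intCast_eq_intCast_iff]
      exact h
    simpa using this
  · intro h
    have : ((z : ℤ) : ZMod 2) = ((1 : ℤ) : ZMod 2) := by simpa using h
    rw [ZMod.intCast_eq_intCast_iff] at this
    exact this

theorem wt_le {k p : ℕ} (a : Fin p → Fin k → ZMod 2) (b : Fin k → ℤ) (T : ℝ) (hT : 0 ≤ T)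
    (ha : ∀ b : Fin k → ZMod 2, b ≠ 0 →
        ((#{i : Fin p | ∑ j, b j * a i j = 1} : ℕ) : ℝ) ≤ T) :
    (wt (ma a) (mb a) b : ℝ) ≤ (k : ℝ) + 1 + T := by
  classical
  set b' : Fin k → ZMod 2 := fun j => (b j : ZMod 2) with hb'
  by_cases hb0 : b' = 0
  · have : wt (ma a) (mb a) b = 0 := by
      rw [wt, Finset.card_eq_zero, Finset.filter_eq_empty_iff]
      intro l _
      rw [odd_iff_cast, par]
      push_cast
      have : ∀ j, ((b j : ℤ) : ZMod 2) = 0 := fun j => congrFun hb0 j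
      simp [this]
    rw [this]
    push_cast
    positivity
  · have h1 := ha b' hb0
    have h2 : wt (ma a) (mb a) b ≤ k + 1 + #{i : Fin p | ∑ j, b' j * a i j = 1} := by
      rw [wt, Finset.card_filter, Fintype.sum_sum_type, Fintype.sum_sum_type, Finset.card_filter]
      have e1 : ∑ j : Fin k, (if Odd (par (ma a) (mb a) b (Sum.inl j)) then 1 else 0) ≤ k := by
        calc ∑ j : Fin k, (if Odd (par (ma a) (mb a) b (Sum.inl j)) then 1 else 0)
            ≤ ∑ j : Fin k, 1 := Finset.sum_le_sum fun j _ => by split_ifs <;> simp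
          _ = k := by simp
      have e2 : ∑ u : Unit, (if Odd (par (ma a) (mb a) b (Sum.inr (Sum.inr u))) then 1 else 0)
          ≤ 1 := by
        rw [Finset.univ_unique, Finset.sum_singleton]
        split_ifs <;> simp
      have e3 : ∑ i : Fin p, (if Odd (par (ma a) (mb a) b (Sum.inr (Sum.inl i))) then 1 else 0) =
          ∑ i : Fin p, (if ∑ j, b' j * a i j = 1 then 1 else 0) := by
        apply Finset.sum_congr rfl
        intro i _
        have : Odd (par (ma a) (mb a) b (Sum.inr (Sum.inl i))) ↔ ∑ j, b' j * a i j = 1 := by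
          rw [odd_iff_cast, par]
          push_cast
          simp only [full, Sum.elim_inl, Sum.elim_inr, ma_cast, hb']
        simp only [this]
      omega
    have h2' : (wt (ma a) (mb a) b : ℝ) ≤ (k : ℝ) + 1 +
        ((#{i : Fin p | ∑ j, b' j * a i j = 1} : ℕ) : ℝ) := by exact_mod_cast h2
    linarith

theorem t_EX (hCHE : P_CHE) (hDEP : P_DEP) : P_EX := by
  intro k p q x t hk hqp hx0 hx1 ht hlt
  obtain ⟨a, ha1, ha2⟩ := exists_mat hCHE hDEP k p q x t hqp hx0 hx1 ht hlt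
  exact ⟨ma a, mb a, even_row a, even_wt a, fun b => wt_le a b _ (by positivity) ha2, ha1⟩

end Pool.Agent.Y725.CL
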