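import Pool.Agent.Y725.CL.Main

/-! All nondecreasing bounds below `4 s - s ^ β` fail. -/

set_option autoImplicit false

open Finset Filter

namespace Pool.Agent.Y725.CL

open Pool.Agent.H178R3.Cay

theorem all_bounds (hEX : P_EX) (hNUM2 : P_NUM2) (g : ℕ → ℝ) (β : ℝ) (hg : Monotone g)
    (hβ : 2 / 3 < β) (hβ1 : β < 1)
    (hf : ∃ᶠ s : ℕ in atTop, g s ≤ 4 * (s : ℝ) - (s : ℝ) ^ β) :
    ∃ (s d : ℕ) (v : Fin (d + 1) → Fin d → ℝ), Good d s v ∧ g s < d ∧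
      ∀ r : ℕ, (d : ℤ) + 1 - ⌊g s⌋ ≤ r → ¬ IsCayley (convexHull ℝ (Set.range v)) r := by
  obtain ⟨β', hβ'1, hβ'2⟩ : ∃ β' : ℝ, 2 / 3 < β' ∧ β' < β := exists_between hβ
  obtain ⟨N, hN⟩ := eventually_atTop.1 (sharper hEX hNUM2 β' hβ'1)
  -- the growth conditions
  have h1 : ∀ᶠ n : ℕ in atTop, 4 * (n : ℝ) ^ β' ≤ (n : ℝ) ^ β / 2 := by
    have h1 : Tendsto (fun d : ℕ => (d : ℝ) ^ (β - β')) atTop atTop :=
      (tendsto_rpow_atTop (by linarith)).comp tendsto_natCast_atTop_atTop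
    filter_upwards [h1.eventually_ge_atTop 8, eventually_ge_atTop 1] with d hd hd1
    have hd0 : (0 : ℝ) < d := by exact_mod_cast hd1
    have : (d : ℝ) ^ β = (d : ℝ) ^ (β - β') * (d : ℝ) ^ β' := by
      rw [← Real.rpow_add hd0]; congr 1; ring
    rw [this]
    have h0 : (0 : ℝ) ≤ (d : ℝ) ^ β' := by positivity
    nlinarith
  have h2 : ∀ᶠ n : ℕ in atTop, 1 ≤ n ∧ N ≤ n := by
    filter_upwards [eventually_ge_atTop 1, eventually_ge_atTop N] with n h h'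
    exact ⟨h, h'⟩
  obtain ⟨n, hgn, hn1, hn0, hnN⟩ := (hf.and_eventually (h1.and h2)).exists
  have hnpos : (1 : ℝ) ≤ (n : ℝ) := by exact_mod_cast hn0
  have hb0 : (1 : ℝ) ≤ (n : ℝ) ^ β' := Real.one_le_rpow hnpos (by linarith)
  have hb1 : (n : ℝ) ^ β ≤ n := by
    calc (n : ℝ) ^ β ≤ (n : ℝ) ^ (1 : ℝ) := Real.rpow_le_rpow_of_exponent_le hnpos hβ1.le
      _ = n := Real.rpow_one _
  set d : ℕ := ⌈4 * (n : ℝ) - (n : ℝ) ^ β / 2⌉₊ with hd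
  have hdl : 4 * (n : ℝ) - (n : ℝ) ^ β / 2 ≤ d := Nat.le_ceil _
  have hdu : (d : ℝ) < 4 * (n : ℝ) - (n : ℝ) ^ β / 2 + 1 := Nat.ceil_lt_add_one (by linarith)
  have hdN : N ≤ d := by
    have : (n : ℝ) ≤ d := by linarith
    exact hnN.trans (by exact_mod_cast this)
  obtain ⟨s, v, hgood, hs, hr⟩ := hN d hdN
  have hd4 : (d : ℝ) ≤ 4 * n := by linarith
  have hdp : (d : ℝ) ^ β' ≤ (n : ℝ) ^ β / 2 := by
    calc (d : ℝ) ^ β' ≤ (4 * (n : ℝ)) ^ β' :=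
          Real.rpow_le_rpow (by positivity) hd4 (by linarith)
      _ = 4 ^ β' * (n : ℝ) ^ β' := Real.mul_rpow (by norm_num) (by positivity)
      _ ≤ 4 * (n : ℝ) ^ β' := by
          apply mul_le_mul_of_nonneg_right _ (by positivity)
          calc (4 : ℝ) ^ β' ≤ 4 ^ (1 : ℝ) :=
                Real.rpow_le_rpow_of_exponent_le (by norm_num) (by linarith)
            _ = 4 := Real.rpow_one _
      _ ≤ _ := hn1
  have hsn : s ≤ n := by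
    have : (4 : ℝ) * s < 4 * n + 4 := by linarith
    have h3 : 4 * s < 4 * n + 4 := by exact_mod_cast this
    omega
  have hgs : g s ≤ 4 * (n : ℝ) - (n : ℝ) ^ β := (hg hsn).trans hgn
  refine ⟨s, d, v, hgood, by linarith, ?_⟩
  intro r hrr
  apply hr
  have h5 : (((d : ℤ) + 1 - ⌊g s⌋ : ℤ) : ℝ) ≤ ((r : ℤ) : ℝ) := by exact_mod_cast hrr
  push_cast at h5
  have h6 : ((⌊g s⌋ : ℤ) : ℝ) ≤ g s := Int.floor_le _
  linarith

theorem q1 (hEX : P_EX) (hNUM2 : P_NUM2) : ∃ (s d : ℕ) (P : Set (Fin d → ℝ)),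
    1 ≤ s ∧ (17 * s - 4 : ℚ) / 6 < d ∧ IsLatticePolytope P ∧ (interior P).Nonempty ∧
    HasDegree P s ∧
    ∀ r : ℕ, (d : ℤ) + 1 - ⌊(17 * s - 4 : ℚ) / 6⌋ ≤ r → ¬ IsCayley P r := by
  obtain ⟨s, d, v, ⟨hv, hint, hs1, hdeg⟩, hgs, hr⟩ := all_bounds hEX hNUM2
    (fun s => (17 * (s : ℝ) - 4) / 6) (3 / 4) (by
      intro a b hab
      have : (a : ℝ) ≤ b := by exact_mod_cast hab
      show (17 * (a : ℝ) - 4) / 6 ≤ (17 * (b : ℝ) - 4) / 6
      linarith) (by norm_num) (by norm_num) (by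
      apply Eventually.frequently
      have h1 : Tendsto (fun d : ℕ => (d : ℝ) ^ (1 / 4 : ℝ)) atTop atTop :=
        (tendsto_rpow_atTop (by norm_num)).comp tendsto_natCast_atTop_atTop
      filter_upwards [h1.eventually_ge_atTop 1, eventually_ge_atTop 1] with n hn hn1
      have hn0 : (0 : ℝ) < n := by exact_mod_cast hn1
      have h2 : (n : ℝ) ^ (3 / 4 : ℝ) ≤ n := by
        calc (n : ℝ) ^ (3 / 4 : ℝ) ≤ (n : ℝ) ^ (1 : ℝ) :=
              Real.rpow_le_rpow_of_exponent_le (by exact_mod_cast hn1) (by norm_num)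
          _ = n := Real.rpow_one _
      linarith)
  have hcast : (((17 * s - 4 : ℚ) / 6 : ℚ) : ℝ) = (17 * (s : ℝ) - 4) / 6 := by push_cast; ring
  refine ⟨s, d, convexHull ℝ (Set.range v), hs1, ?_,
    ⟨Set.range v, Set.finite_range _, ⟨_, ⟨0, rfl⟩⟩, ?_, rfl⟩, hint, hdeg, ?_⟩
  · have : (((17 * s - 4 : ℚ) / 6 : ℚ) : ℝ) < ((d : ℚ) : ℝ) := by
      rw [hcast]; push_cast; exact hgs
    exact_mod_cast this
  · rintro _ ⟨i, rfl⟩; exact hv i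
  · intro r h
    apply hr
    have hfl : ⌊(17 * (s : ℝ) - 4) / 6⌋ = ⌊(17 * s - 4 : ℚ) / 6⌋ := by
      rw [← hcast, Rat.floor_cast]
    show (d : ℤ) + 1 - ⌊(17 * (s : ℝ) - 4) / 6⌋ ≤ r
    rw [hfl]; exact h

end Pool.Agent.Y725.CL
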