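import Pool.Agent.Y725.CL.Ex

/-! Lattice simplices with few Cayley factors. -/

set_option autoImplicit false

open Finset Filter

namespace Pool.Agent.Y725.CL

open Pool.Agent.H178R3.Cay

/-- The properties of the simplices, in dimension `d`. -/
def Good (d s : ℕ) (v : Fin (d + 1) → Fin d → ℝ) : Prop :=
  (∀ i, IsLatticePoint (v i)) ∧ (interior (convexHull ℝ (Set.range v))).Nonempty ∧
    1 ≤ s ∧ HasDegree (convexHull ℝ (Set.range v)) s

/-- One simplex. -/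
theorem one_simplex (hEX : P_EX) (k p q : ℕ) (x t W : ℝ) (hk : 0 < k) (hqp : q < p)
    (hx0 : 0 < x) (hx1 : x ≤ 1) (ht : 0 ≤ t)
    (hlt : (1 + x) ^ (k + p + 1) / x ^ q / 2 ^ k + 2 ^ k * Real.exp (-(2 * t ^ 2 / p)) < 1)
    (hW : (k : ℝ) + 1 + ((p : ℝ) / 2 + t) ≤ W) :
    ∃ (s : ℕ) (v : Fin (k + p + 1) → Fin (k + p) → ℝ), Good (k + p) s v ∧ 2 * (s : ℝ) ≤ W ∧
      ∀ r : ℕ, k + p + 1 < r * (q + 1) → ¬ IsCayley (convexHull ℝ (Set.range v)) r := by
  obtain ⟨A, B, hE, hEw, hw, hI⟩ := hEX k p q x t hk hqp hx0 hx1 ht hlt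
  have hW0 : 0 ≤ W := le_trans (by positivity) hW
  obtain ⟨s, hs1, hs2, hdeg⟩ := exists_degree A B (w := ⌊W⌋₊) hk hEw
    (fun b => Nat.le_floor ((hw b).trans hW))
  have hcard : Fintype.card (V k p) = k + p + 1 := by simp [V]; ring
  let e : V k p ≃ Fin (k + p + 1) := Fintype.equivFinOfCardEq hcard
  have hrange : Set.range (vtx A ∘ e.symm) = Set.range (vtx A) := by
    rw [Set.range_comp, Set.range_eq_univ.2 e.symm.surjective, Set.image_univ]
  have hsim : convexHull ℝ (Set.range (vtx A ∘ e.symm)) = simplex A := by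
    rw [hrange]; rfl
  refine ⟨s, vtx A ∘ e.symm, ⟨fun i => vtx_lattice A _, ?_, hs1, ?_⟩, ?_, ?_⟩
  · rw [hsim]
    obtain ⟨x, hx, _⟩ := exists_interior_point A hk
    have hkp : ((k + p : ℕ) : ℝ) ≠ 0 := by
      have : k + p ≠ 0 := by omega
      exact_mod_cast this
    rw [interior_smul₀ hkp] at hx
    obtain ⟨y, hy, _⟩ := hx
    exact ⟨y, hy⟩
  · rw [hsim]; exact hdeg
  · have h1 : ((2 * s : ℕ) : ℝ) ≤ ((⌊W⌋₊ : ℕ) : ℝ) := by exact_mod_cast hs2
    push_cast at h1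
    exact h1.trans (Nat.floor_le hW0)
  · intro r hr
    rw [hsim]
    exact not_isCayley A B (q := q) hE hI hr

theorem bounded (hEX : P_EX) (hNUM : P_NUM) (α : ℝ) (hα : α < 4) :
    ∃ R : ℕ, ∀ᶠ d : ℕ in atTop, ∃ (s : ℕ) (v : Fin (d + 1) → Fin d → ℝ), Good d s v ∧
      α * s < d ∧ ∀ r : ℕ, R ≤ r → ¬ IsCayley (convexHull ℝ (Set.range v)) r := by
  obtain ⟨ε, hε, hεα⟩ : ∃ ε : ℝ, 0 < ε ∧ (α ≤ 0 ∨ α * (1 / 4 + ε / 2) < 1) := by
    rcases le_or_gt α 0 with h | h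
    · exact ⟨1, one_pos, Or.inl h⟩
    · refine ⟨1 / α - 1 / 4, ?_, Or.inr ?_⟩
      · rw [sub_pos]
        exact one_div_lt_one_div_of_lt h hα
      · have : α * (1 / 4 + (1 / α - 1 / 4) / 2) = α / 8 + 1 / 2 := by
          field_simp
          ring
        rw [this]; linarith
  obtain ⟨δ, hδ, hev⟩ := hNUM ε hε
  refine ⟨⌈2 / δ⌉₊, ?_⟩
  filter_upwards [hev, eventually_ge_atTop 2] with d hd hd2
  obtain ⟨k, p, q, x, t, rfl, hk, hqp, hx0, hx1, ht, hlt, hW, hq⟩ := hd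
  obtain ⟨s, v, hgood, hs, hr⟩ := one_simplex hEX k p q x t _ hk hqp hx0 hx1 ht hlt hW
  have hd0 : (0 : ℝ) < ((k + p : ℕ) : ℝ) := by
    have : 0 < k + p := by omega
    exact_mod_cast this
  refine ⟨s, v, hgood, ?_, ?_⟩
  · have hs' : (s : ℝ) ≤ (1 / 4 + ε / 2) * ((k + p : ℕ) : ℝ) := by linarith
    rcases hεα with h | h
    · have : α * (s : ℝ) ≤ 0 := mul_nonpos_of_nonpos_of_nonneg h (by positivity)
      linarith
    · rcases le_or_gt α 0 with h0 | h0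
      · have : α * (s : ℝ) ≤ 0 := mul_nonpos_of_nonpos_of_nonneg h0 (by positivity)
        linarith
      · calc α * (s : ℝ) ≤ α * ((1 / 4 + ε / 2) * ((k + p : ℕ) : ℝ)) :=
              mul_le_mul_of_nonneg_left hs' h0.le
          _ = (α * (1 / 4 + ε / 2)) * ((k + p : ℕ) : ℝ) := by ring
          _ < 1 * ((k + p : ℕ) : ℝ) := mul_lt_mul_of_pos_right h hd0
          _ = _ := one_mul _
  · intro r hR
    apply hr
    have h1 : 2 / δ ≤ (r : ℝ) := (Nat.le_ceil _).trans (by exact_mod_cast hR)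
    have h2 : (2 : ℝ) ≤ r * δ := by
      rwa [div_le_iff₀ hδ] at h1
    have h3 : (2 : ℝ) * ((k + p : ℕ) : ℝ) ≤ r * q := by
      calc (2 : ℝ) * ((k + p : ℕ) : ℝ) ≤ (r * δ) * ((k + p : ℕ) : ℝ) :=
            mul_le_mul_of_nonneg_right h2 hd0.le
        _ = r * (δ * ((k + p : ℕ) : ℝ)) := by ring
        _ ≤ r * q := mul_le_mul_of_nonneg_left hq (by positivity)
    have h3' : 2 * (k + p) ≤ r * q := by exact_mod_cast h3
    have hr0 : 0 < r := by
      rcases Nat.eq_zero_or_pos r with h | h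
      · subst h; norm_num at h2
      · exact h
    nlinarith

theorem sharper (hEX : P_EX) (hNUM2 : P_NUM2) (β : ℝ) (hβ : 2 / 3 < β) :
    ∀ᶠ d : ℕ in atTop, ∃ (s : ℕ) (v : Fin (d + 1) → Fin d → ℝ), Good d s v ∧
      4 * (s : ℝ) ≤ d + (d : ℝ) ^ β ∧
      ∀ r : ℕ, (d : ℝ) ^ β ≤ r → ¬ IsCayley (convexHull ℝ (Set.range v)) r := by
  -- a smaller exponent, to absorb the factor 2
  obtain ⟨β', hβ1, hβ2⟩ : ∃ β' : ℝ, 2 / 3 < β' ∧ β' < β := exists_between hβ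
  have hlim : ∀ᶠ d : ℕ in atTop, 2 * (d : ℝ) ^ β' ≤ (d : ℝ) ^ β := by
    have h1 : Tendsto (fun d : ℕ => (d : ℝ) ^ (β - β')) atTop atTop :=
      (tendsto_rpow_atTop (by linarith)).comp tendsto_natCast_atTop_atTop
    filter_upwards [h1.eventually_ge_atTop 2, eventually_ge_atTop 1] with d hd hd1
    have hd0 : (0 : ℝ) < d := by exact_mod_cast hd1
    have : (d : ℝ) ^ β = (d : ℝ) ^ (β - β') * (d : ℝ) ^ β' := by
      rw [← Real.rpow_add hd0]; congr 1; ring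
    rw [this]
    exact mul_le_mul_of_nonneg_right hd (by positivity)
  filter_upwards [hNUM2 β' hβ1, hlim, eventually_ge_atTop 2] with d hd hd' hd2
  obtain ⟨k, p, q, x, t, rfl, hk, hqp, hx0, hx1, ht, hlt, hW, hq⟩ := hd
  obtain ⟨s, v, hgood, hs, hr⟩ := one_simplex hEX k p q x t _ hk hqp hx0 hx1 ht hlt hW
  have hd0 : (0 : ℝ) < ((k + p : ℕ) : ℝ) := by
    have : 0 < k + p := by omega
    exact_mod_cast this
  refine ⟨s, v, hgood, by linarith, ?_⟩
  intro r hR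
  apply hr
  have h0 : (0 : ℝ) < ((k + p : ℕ) : ℝ) ^ β' := Real.rpow_pos_of_pos hd0 _
  have h1 : ((k + p : ℕ) : ℝ) ^ β' ≤ (r : ℝ) := by linarith
  have h3 : (2 : ℝ) * ((k + p : ℕ) : ℝ) ≤ r * q := by
    calc (2 : ℝ) * ((k + p : ℕ) : ℝ)
        = ((k + p : ℕ) : ℝ) ^ β' * (2 * ((k + p : ℕ) : ℝ) ^ (1 - β')) := by
          have : ((k + p : ℕ) : ℝ) ^ β' * ((k + p : ℕ) : ℝ) ^ (1 - β') = ((k + p : ℕ) : ℝ) := by
            rw [← Real.rpow_add hd0]
            have : β' + (1 - β') = 1 := by ring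
            rw [this, Real.rpow_one]
          linear_combination (-2 : ℝ) * this
      _ ≤ r * q := mul_le_mul h1 hq (by positivity) (by positivity)
  have h3' : 2 * (k + p) ≤ r * q := by exact_mod_cast h3
  have hr0 : 0 < r := by
    have : (0 : ℝ) < (r : ℝ) := lt_of_lt_of_le h0 h1
    exact_mod_cast this
  nlinarith

end Pool.Agent.Y725.CL
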