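import Pool.Agent.H178R3.CayMain

/-!
# Statements for the random codes behind lattice simplices with few Cayley factors
-/

set_option autoImplicit false

open Finset Filter

namespace Pool.Agent.Y725.CL

open Pool.Agent.H178R3.Cay

/-- The integer matrix (entries 0 and 1, rows indexed by `Fin k`) with the columns `a i`. -/
def ma {k p : ℕ} (a : Fin p → Fin k → ZMod 2) (j : Fin k) (i : Fin p) : ℤ := ((a i j).val : ℤ)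

/-- The last column: it makes all the row sums of `[I | A | B]` even. -/
def mb {k p : ℕ} (a : Fin p → Fin k → ZMod 2) (j : Fin k) : ℤ := 1 + ∑ i, ma a j i

/-- CHE: Chernoff bound, as a count. -/
def P_CHE : Prop := ∀ (k p : ℕ) (b : Fin k → ZMod 2) (t : ℝ), 0 < p → b ≠ 0 → 0 ≤ t →
  ((#{a : Fin p → Fin k → ZMod 2 | (p : ℝ) / 2 + t ≤
      ((#{i : Fin p | ∑ j, b j * a i j = 1} : ℕ) : ℝ)} : ℕ) : ℝ) ≤
    (2 : ℝ) ^ (k * p) * Real.exp (-(2 * t ^ 2 / p))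

/-- DEP: the matrices for which a fixed small set of columns of `[I | A | B]` has sum zero. -/
def P_DEP : Prop := ∀ (k p : ℕ) (I : Finset (V k p)), I.Nonempty → #I < p →
  #{a : Fin p → Fin k → ZMod 2 | ∀ j, Even (∑ l ∈ I, full (ma a) (mb a) j l)} * 2 ^ k ≤
    2 ^ (k * p)

/-- SUB: the number of small subsets. -/
def P_SUB : Prop := ∀ (n q : ℕ) (x : ℝ), 0 < x → x ≤ 1 → ∀ (α : Type) [Fintype α]
  [DecidableEq α], Fintype.card α = n →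
  ((#{I : Finset α | #I ≤ q} : ℕ) : ℝ) ≤ (1 + x) ^ n / x ^ q

/-- NUM: the choice of the parameters. -/
def P_NUM : Prop := ∀ ε : ℝ, 0 < ε → ∃ δ : ℝ, 0 < δ ∧ ∀ᶠ d : ℕ in atTop,
  ∃ (k p q : ℕ) (x t : ℝ), k + p = d ∧ 0 < k ∧ q < p ∧ 0 < x ∧ x ≤ 1 ∧ 0 ≤ t ∧
    (1 + x) ^ (d + 1) / x ^ q / 2 ^ k + 2 ^ k * Real.exp (-(2 * t ^ 2 / p)) < 1 ∧
    (k : ℝ) + 1 + ((p : ℝ) / 2 + t) ≤ (1 / 2 + ε) * d ∧ δ * d ≤ q

/-- NUM2: the choice of the parameters, sharper form. -/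
def P_NUM2 : Prop := ∀ β : ℝ, 2 / 3 < β → ∀ᶠ d : ℕ in atTop,
  ∃ (k p q : ℕ) (x t : ℝ), k + p = d ∧ 0 < k ∧ q < p ∧ 0 < x ∧ x ≤ 1 ∧ 0 ≤ t ∧
    (1 + x) ^ (d + 1) / x ^ q / 2 ^ k + 2 ^ k * Real.exp (-(2 * t ^ 2 / p)) < 1 ∧
    (k : ℝ) + 1 + ((p : ℝ) / 2 + t) ≤ (d : ℝ) / 2 + (d : ℝ) ^ β ∧ 2 * (d : ℝ) ^ (1 - β) ≤ q

/-- EX: a good matrix exists. -/
def P_EX : Prop := ∀ (k p q : ℕ) (x t : ℝ), 0 < k → q < p → 0 < x → x ≤ 1 → 0 ≤ t →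
  (1 + x) ^ (k + p + 1) / x ^ q / 2 ^ k + 2 ^ k * Real.exp (-(2 * t ^ 2 / p)) < 1 →
  ∃ (A : Fin k → Fin p → ℤ) (B : Fin k → ℤ),
    (∀ j, Even (∑ l, full A B j l)) ∧ (∀ b, Even (wt A B b)) ∧
    (∀ b, (wt A B b : ℝ) ≤ (k : ℝ) + 1 + ((p : ℝ) / 2 + t)) ∧
    (∀ I : Finset (V k p), I.Nonempty → #I ≤ q → ∃ j, Odd (∑ l ∈ I, full A B j l))

end Pool.Agent.Y725.CL
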