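import Pool.Agent.Y725.CL.Stm

/-! The number of small subsets. -/

set_option autoImplicit false

open Finset Filter

namespace Pool.Agent.Y725.CL

theorem t_SUB : P_SUB := by
  intro n q x hx0 hx1 α _ _ hα
  rw [le_div_iff₀ (by positivity)]
  have h1 : (1 + x) ^ n = ∑ I : Finset α, x ^ #I := by
    have h := Finset.prod_add (fun _ : α => x) (fun _ : α => (1 : ℝ)) Finset.univ
    simp only [Finset.prod_const, Finset.card_univ, hα, one_pow, mul_one, Finset.powerset_univ] at h
    rw [add_comm, h]
  rw [h1, Finset.card_eq_sum_ones, Nat.cast_sum, Finset.sum_mul]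
  calc ∑ I : Finset α with #I ≤ q, ((1 : ℕ) : ℝ) * x ^ q
      ≤ ∑ I : Finset α with #I ≤ q, x ^ #I := by
        apply Finset.sum_le_sum
        intro I hI
        rw [Finset.mem_filter] at hI
        rw [Nat.cast_one, one_mul]
        exact pow_le_pow_of_le_one hx0.le hx1 hI.2
    _ ≤ ∑ I : Finset α, x ^ #I :=
        Finset.sum_le_sum_of_subset_of_nonneg (Finset.filter_subset _ _) fun I _ _ => by positivity

end Pool.Agent.Y725.CL
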